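import Pool.Agent.Helper94.CPB.Nil
import Pool.Agent.Helper89.CPB.SectionHalf
import Pool.Agent.Helper91.CPB.LocalConverse
import Pool.Agent.Helper64.CPB.Converse

/-!
# One generic section is enough

`C⁺` for ONE generic complete intersection of codimension `2c - 1` in `X × X` gives algebraic left
inverses of all `L ^ e`, `e ≥ c`, on the `H^j(X)`, `j ≤ dim X - e`, hence `B(X)` in all degrees
`≤ dim X - c`.
-/

namespace Pool.Agent.Helper29.CPB

open TensorProduct

universe u v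

variable {F : Type u} [Field F] [CharZero F]

/-- from nilpotency to the left inverse -/
theorem leftInverse_of_nil (X : Variety.{u, v} F) (c : ℕ)
    (hnil : ∀ a ∈ X.corr 0, (∀ θ ∈ X.corr (-(c : ℤ)),
      LinearMap.trace F X.H (θ * X.L ^ c * a * X.sgn) = 0) →
      ∃ M : ℕ, ∀ j : ℤ, j ≤ X.dim - c → ∀ x, X.π j x = x → (a ^ M) x = 0) :
    ∃ w ∈ X.corr (-(c : ℤ)), ∀ j : ℤ, j ≤ X.dim - c → ∀ x, X.π j x = x →
      w ((X.L ^ c) x) = x := by
  obtain ⟨w₀, hw₀, hgen⟩ := exists_generator_corr X c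
  have hwL : w₀ * X.L ^ c ∈ X.corr 0 := X.corr_mul' (by ring) hw₀ (X.Lpow_corr c)
  have ha : 1 - w₀ * X.L ^ c ∈ X.corr 0 := (X.corr 0).sub_mem X.corr_one hwL
  obtain ⟨M, hM⟩ := hnil (1 - w₀ * X.L ^ c) ha hgen
  refine ⟨(∑ k ∈ Finset.range M, (1 - w₀ * X.L ^ c) ^ k) * w₀, X.corr_mul' (by ring)
    (X.corr_sum _ _ fun k _ => X.corr_pow_zero ha k) hw₀, ?_⟩
  intro j hj x hx
  have h1 : (∑ k ∈ Finset.range M, (1 - w₀ * X.L ^ c) ^ k) * w₀ * X.L ^ c =
      1 - (1 - w₀ * X.L ^ c) ^ M := by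
    rw [← geom_sum_mul_neg, sub_sub_cancel, mul_assoc]
  rw [← Module.End.mul_apply, h1, LinearMap.sub_apply, hM j hj x hx, sub_zero,
    Module.End.one_apply]

/-- Algebraic left inverses of all `L ^ (c + k)` from one operator on `X × X`. -/
theorem inverses_of_evenInverse {X Z : Variety.{u, v} F} {τ : (X.H ⊗[F] X.H) ≃ₗ[F] Z.H}
    (hsq : IsSquare X Z τ) (c : ℕ) (hc : 1 ≤ c) (h : EvenInverse Z (2 * c - 1)) (k : ℕ) :
    ∃ w ∈ X.corr (-((c + k : ℕ) : ℤ)), ∀ j : ℤ, j ≤ X.dim - (c + k : ℕ) →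
      ∀ x, X.π j x = x → w ((X.L ^ (c + k)) x) = x := by
  induction k using Nat.strong_induction_on with
  | _ k ih =>
    apply leftInverse_of_nil
    intro a ha hnum
    apply nil_of_one hsq c k hc h _ a ha hnum
    intro i hi
    rcases Nat.eq_zero_or_pos i with rfl | hipos
    · refine ⟨1, by simpa using X.corr_one, ?_⟩
      intro j _ x _
      rw [pow_zero, Module.End.one_apply, Module.End.one_apply]
    · rcases Nat.lt_or_ge i c with hic | hic
      · obtain ⟨w, hw, hinv⟩ := ih 0 (by omega)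
        refine ⟨w * X.L ^ (c - i), X.corr_mul' (r := -((c + 0 : ℕ) : ℤ)) (s := ((c - i : ℕ) : ℤ))
          (by omega) hw (X.Lpow_corr _), ?_⟩
        intro j hj x hx
        have h1 := hinv j (by push_cast at hj ⊢; omega) x hx
        rw [← Module.End.mul_apply, mul_assoc, ← pow_add, show c - i + i = c + 0 by omega,
          Module.End.mul_apply]
        exact h1
      · obtain ⟨w, hw, hinv⟩ := ih (i - c) (by omega)
        rw [show c + (i - c) = i by omega] at hw hinv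
        exact ⟨w, hw, fun j hj x hx => hinv j (by push_cast at hj ⊢; omega) x hx⟩

/-- `C⁺` for one generic complete intersection of codimension `2c - 1` in `X × X` gives algebraic
left inverses of all `L ^ e`, `e ≥ c`, on the `H^j(X)`, `j ≤ dim X - e`. -/
theorem inverses_of_cplus {X Z S : Variety.{u, v} F} {τ : (X.H ⊗[F] X.H) ≃ₗ[F] Z.H}
    (hsq : IsSquare X Z τ) (c : ℕ) (hc : 1 ≤ c) (hcn : c ≤ X.dim)
    (G : GenericSection Z S (2 * c - 1)) (h : S.CPlus) (e : ℕ) (he : c ≤ e) :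
    ∃ w ∈ X.corr (-(e : ℤ)), ∀ j : ℤ, j ≤ X.dim - e → ∀ x, X.π j x = x →
      w ((X.L ^ e) x) = x := by
  have h1 := G.dim
  have h2 := hsq.dim
  obtain ⟨w, hw, hinv⟩ := inverses_of_evenInverse hsq c hc
    (evenInverse_of_cplus G ⟨X.dim - c, by omega⟩ h) (e - c)
  rw [show c + (e - c) = e by omega] at hw hinv
  exact ⟨w, hw, hinv⟩

end Pool.Agent.Helper29.CPB
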