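import Pool.Agent.Helper94.CPB.OneSection
import Pool.Agent.Helper29.CPB.Main

/-!
# The sign conjecture for one hyperplane section of `X × X` is equivalent to `B(X)`
-/

namespace Pool.Agent.Helper94.CPB

open Pool.Agent.Helper29.CPB

universe u v

variable {F : Type u} [Field F]

/-- The class `𝒱` of varieties is stable under generic hyperplane sections of squares: with `X`,
`dim X ≥ 1`, it contains a generic member of `|mL|` on `X × X`. -/
def HyperplaneClosed (𝒱 : Set (Variety.{u, v} F)) : Prop :=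
  ∀ X ∈ 𝒱, 1 ≤ X.dim → ∃ (Z : Variety.{u, v} F) (μ : X.H → X.H → Z.H), SelfProduct X Z μ ∧
    ∃ S ∈ 𝒱, Nonempty (GenericSection Z S 1)

/-- (1) If `C⁺` holds for one variety, a generic complete intersection `S` of codimension `2c - 1`
in `X × X`, then `B(X)` holds in all degrees `≤ dim X - c`: for all `e ≥ c`, `L^e` has an algebraic
left inverse on all `H^j(X)` with `j ≤ dim X - e`. (2) For every single `X` of positive dimension:
`B(X)` holds if and only if `C⁺` holds for one variety, a generic hyperplane section of `X × X`.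
(3) For a class of varieties stable under generic hyperplane sections of squares the following
are equivalent: `C⁺` for the members of odd dimension; `C⁺`, `C`, `B` for all members. -/
theorem final [CharZero F] :
    (∀ (X Z S : Variety.{u, v} F) (μ : X.H → X.H → Z.H) (c : ℕ), SelfProduct X Z μ → 1 ≤ c →
      c ≤ X.dim → GenericSection Z S (2 * c - 1) → S.CPlus → ∀ e, c ≤ e → X.LeftInverse e) ∧
    (∀ (X Z S : Variety.{u, v} F) (μ : X.H → X.H → Z.H), SelfProduct X Z μ → 1 ≤ X.dim →
      GenericSection Z S 1 → (X.Lefschetz ↔ S.CPlus)) ∧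
    (∀ 𝒱 : Set (Variety.{u, v} F), HyperplaneClosed 𝒱 →
      [∀ X ∈ 𝒱, Odd X.dim → X.CPlus, ∀ X ∈ 𝒱, X.CPlus, ∀ X ∈ 𝒱, X.Kunneth,
        ∀ X ∈ 𝒱, X.Lefschetz].TFAE) := by
  have local_form : ∀ (X Z S : Variety.{u, v} F) (μ : X.H → X.H → Z.H) (c : ℕ),
      SelfProduct X Z μ → 1 ≤ c → c ≤ X.dim → GenericSection Z S (2 * c - 1) → S.CPlus →
      ∀ e, c ≤ e → X.LeftInverse e := by
    intro X Z S μ c hsp hc hcn G h e he
    obtain ⟨τ, hsq⟩ := hsp.isSquare
    obtain ⟨w, hw, hinv⟩ := inverses_of_cplus hsq c hc hcn G h e he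
    exact ⟨w, hw, hinv⟩
  have all : ∀ X : Variety.{u, v} F, (∀ c, 1 ≤ c → X.LeftInverse c) → X.Lefschetz := by
    intro X h
    apply lefschetz_of_inverse
    intro c hc hcn
    obtain ⟨w, hw, hinv⟩ := h c hc
    exact ⟨w, hw, hinv⟩
  have one : ∀ (X Z S : Variety.{u, v} F) (μ : X.H → X.H → Z.H), SelfProduct X Z μ → 1 ≤ X.dim →
      GenericSection Z S 1 → (X.Lefschetz ↔ S.CPlus) := by
    intro X Z S μ hsp hX G
    constructor
    · intro h
      obtain ⟨τ, hsq⟩ := hsp.isSquare
      have h1 := G.dim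
      have h2 := hsp.dim
      exact cplus_of_lefschetz hsq G ⟨X.dim - 1, by omega⟩ h
    · intro h
      exact all X (fun e he => local_form X Z S μ 1 hsp le_rfl hX G h e he)
  refine ⟨local_form, one, ?_⟩
  intro 𝒱 hV
  tfae_have 1 → 4 := by
    intro h X hX
    rcases Nat.eq_zero_or_pos X.dim with h0 | hpos
    · apply lefschetz_of_inverse
      intro c hc hcn
      omega
    · obtain ⟨Z, μ, hsp, S, hSV, ⟨G⟩⟩ := hV X hX hpos
      have h1 := G.dim
      have h2 := hsp.dim
      exact (one X Z S μ hsp hpos G).mpr (h S hSV ⟨X.dim - 1, by omega⟩)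
  tfae_have 4 → 3 := fun h X hX => kunneth_of_lefschetz X (h X hX)
  tfae_have 3 → 2 := fun h X hX => cplus_of_kunneth X (h X hX)
  tfae_have 2 → 1 := fun h X hX _ => h X hX
  tfae_finish

end Pool.Agent.Helper94.CPB
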