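import Pool.Agent.Helper76.CPB.Nil
import Pool.Agent.Helper89.CPB.Generator

/-!
# One generic section is enough: nilpotency

If `L ^ c' a` is numerically trivial, then `a` is nilpotent in the degrees at most `dim X - c'`. The
input is the operator given by one generic section of codimension `2 c - 1` of `X × X`, with
`c ≤ c'`, and left inverses of the `L ^ i`, `i ≤ c' - c`, in the same degrees.
-/

namespace Pool.Agent.Helper29.CPB

open TensorProduct NL

universe u v

namespace OS

/-- the coefficient of `x ^ u y ^ (s + k - u)` in `(x + y) ^ s * ∑ β_i x ^ i y ^ (k - i)` -/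
def coef (k s : ℕ) (β : ℕ → ℚ) (u : ℕ) : ℚ :=
  ∑ p ∈ (Finset.range (k + 1) ×ˢ Finset.range (s + 1)).filter (fun p => p.1 + p.2 = u),
    β p.1 * (s.choose p.2 : ℕ)

/-- there are more unknowns than equations -/
lemma exists_coef (k s c : ℕ) : ∃ β : ℕ → ℚ, (∃ i ≤ k, β i ≠ 0) ∧
    ∀ u, c ≤ u → u < c + k → coef k s β u = 0 := by
  let T : (Fin (k + 1) → ℚ) →ₗ[ℚ] (Fin k → ℚ) :=
    { toFun := fun b u => coef k s (fun i => if h : i < k + 1 then b ⟨i, h⟩ else 0) (c + u)
      map_add' := by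
        intro b b'
        funext u
        show coef _ _ _ _ = coef _ _ _ _ + coef _ _ _ _
        unfold coef
        rw [← Finset.sum_add_distrib]
        refine Finset.sum_congr rfl fun p _ => ?_
        dsimp only
        split_ifs
        · rw [Pi.add_apply]; ring
        · ring
      map_smul' := by
        intro r b
        funext u
        show coef _ _ _ _ = r * coef _ _ _ _
        unfold coef
        rw [Finset.mul_sum]
        refine Finset.sum_congr rfl fun p _ => ?_
        dsimp only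
        split_ifs
        · rw [Pi.smul_apply, smul_eq_mul]; ring
        · ring }
  have hker : LinearMap.ker T ≠ ⊥ := by
    apply LinearMap.ker_ne_bot_of_finrank_lt
    simp
  obtain ⟨b, hb, hb0⟩ := (Submodule.ne_bot_iff _).mp hker
  refine ⟨fun i => if h : i < k + 1 then b ⟨i, h⟩ else 0, ?_, ?_⟩
  · by_contra hcon
    push Not at hcon
    apply hb0
    funext i
    have := hcon i.1 (by omega)
    rw [dif_pos i.2] at this
    exact this
  · intro u hu1 hu2
    have h1 := congrFun (LinearMap.mem_ker.mp hb) ⟨u - c, by omega⟩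
    have h2 : c + (u - c) = u := by omega
    show coef k s _ u = 0
    rw [← h2]
    exact h1

end OS

open OS

variable {F : Type u} [Field F] [CharZero F]

/-- the operator `∑ β_i L^i a ⊗ L^(k-i) a` -/
noncomputable def kap {X Z : Variety.{u, v} F} (τ : (X.H ⊗[F] X.H) ≃ₗ[F] Z.H) (k : ℕ)
    (β : ℕ → ℚ) (a : Module.End F X.H) : Module.End F Z.H :=
  ∑ i ∈ Finset.range (k + 1), (β i : F) • τ.conj (TensorProduct.map (X.L ^ i * a)
    (X.L ^ (k - i) * a))

lemma kap_mem {X Z : Variety.{u, v} F} {τ : (X.H ⊗[F] X.H) ≃ₗ[F] Z.H} (hsq : IsSquare X Z τ)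
    (k : ℕ) (β : ℕ → ℚ) {a : Module.End F X.H} (ha : a ∈ X.corr 0) :
    kap τ k β a ∈ Z.corr (k : ℤ) := by
  apply (Z.corr (k : ℤ)).sum_mem
  intro i hi
  rw [Finset.mem_range] at hi
  apply Z.corr_smul
  have h1 := hsq.prod (i : ℤ) ((k - i : ℕ) : ℤ) (X.L ^ i * a) (X.L ^ (k - i) * a)
    (X.corr_mul' (by ring) (X.Lpow_corr i) ha) (X.corr_mul' (by ring) (X.Lpow_corr (k - i)) ha)
  rwa [show (i : ℤ) + ((k - i : ℕ) : ℤ) = k by omega] at h1

/-- `L_Z ^ s κ` is a combination of the `L ^ u a ⊗ L ^ (s+k-u) a` with the coefficients `coef` -/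
lemma Lpow_kap {X Z : Variety.{u, v} F} {τ : (X.H ⊗[F] X.H) ≃ₗ[F] Z.H} (hsq : IsSquare X Z τ)
    (k s : ℕ) (β : ℕ → ℚ) (a : Module.End F X.H) :
    Z.L ^ s * kap τ k β a = ∑ u ∈ Finset.range (s + k + 1), (coef k s β u : F) •
      τ.conj (TensorProduct.map (X.L ^ u * a) (X.L ^ (s + k - u) * a)) := by
  have hexp : ∀ i ∈ Finset.range (k + 1), Z.L ^ s * τ.conj (TensorProduct.map (X.L ^ i * a)
      (X.L ^ (k - i) * a)) = ∑ m ∈ Finset.range (s + 1), ((s.choose m : ℕ) : F) •
        τ.conj (TensorProduct.map (X.L ^ (i + m) * a) (X.L ^ (s + k - (i + m)) * a)) := by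
    intro i hi
    rw [Finset.mem_range] at hi
    apply (τ.symm.conj).injective
    rw [map_sum, conj_mul', conj_pow', conj_conj, conj_L hsq]
    have hcm : Commute (TensorProduct.map X.L 1 : Module.End F (X.H ⊗[F] X.H))
        (TensorProduct.map 1 X.L) := by
      show _ * _ = _ * _
      rw [map_mul', map_mul', mul_one, one_mul]
    rw [hcm.add_pow, Finset.sum_mul]
    refine Finset.sum_congr rfl fun m hm => ?_
    rw [Finset.mem_range] at hm
    rw [map_smul, conj_conj, TensorProduct.map_pow, TensorProduct.map_pow, one_pow, one_pow,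
      map_mul', mul_one, one_mul, (Nat.cast_commute _ _).eq.symm, mul_assoc, map_mul',
      ← nsmul_eq_mul, Nat.cast_smul_eq_nsmul, ← mul_assoc, ← mul_assoc, ← pow_add, ← pow_add,
      show m + i = i + m by omega, show s - m + (k - i) = s + k - (i + m) by omega]
  unfold kap
  rw [Finset.mul_sum]
  have h1 : ∀ i ∈ Finset.range (k + 1), Z.L ^ s * ((β i : F) • τ.conj (TensorProduct.map
      (X.L ^ i * a) (X.L ^ (k - i) * a))) = ∑ m ∈ Finset.range (s + 1),
        ((β i * (s.choose m : ℕ) : ℚ) : F) • τ.conj (TensorProduct.map (X.L ^ (i + m) * a)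
          (X.L ^ (s + k - (i + m)) * a)) := by
    intro i hi
    rw [mul_smul_comm, hexp i hi, Finset.smul_sum]
    refine Finset.sum_congr rfl fun m _ => ?_
    rw [smul_smul]
    push_cast
    rfl
  rw [Finset.sum_congr rfl h1, ← Finset.sum_product']
  rw [← Finset.sum_fiberwise_of_maps_to (s := Finset.range (k + 1) ×ˢ Finset.range (s + 1))
    (t := Finset.range (s + k + 1)) (g := fun p => p.1 + p.2)]
  · refine Finset.sum_congr rfl fun u _ => ?_
    unfold coef
    push_cast
    rw [Finset.sum_smul]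
    refine Finset.sum_congr rfl fun p hp => ?_
    rw [(Finset.mem_filter.mp hp).2]
  · intro p hp
    rw [Finset.mem_product, Finset.mem_range, Finset.mem_range] at hp
    rw [Finset.mem_range]
    omega

/-- `L_Z ^ (2c-1) κ` is numerically trivial if `L ^ (c+k) a` is -/
lemma num_kap {X Z : Variety.{u, v} F} {τ : (X.H ⊗[F] X.H) ≃ₗ[F] Z.H} (hsq : IsSquare X Z τ)
    {c k : ℕ} (hc : 1 ≤ c) {β : ℕ → ℚ} {a : Module.End F X.H}
    (hβ : ∀ u, c ≤ u → u < c + k → coef k (2 * c - 1) β u = 0) (ha : a ∈ X.corr 0)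
    (hn : NumTriv X ((c + k : ℕ) : ℤ) (X.L ^ (c + k) * a)) :
    NumTriv Z ((2 * c - 1 + k : ℕ) : ℤ) (Z.L ^ (2 * c - 1) * kap τ k β a) := by
  rw [Lpow_kap hsq]
  set n := 2 * c - 1 with hnd
  intro v hv
  rw [Finset.sum_mul, Finset.mul_sum, map_sum]
  apply Finset.sum_eq_zero
  intro m hm
  rw [Finset.mem_range] at hm
  rw [smul_mul_assoc, mul_smul_comm, map_smul]
  by_cases hz : c ≤ m ∧ m < c + k
  · rw [hβ m hz.1 hz.2, Rat.cast_zero, zero_smul]
  · have key : NumTriv Z ((n + k : ℕ) : ℤ) (τ.conj (TensorProduct.map (X.L ^ m * a)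
        (X.L ^ (n + k - m) * a))) := by
      rcases Nat.lt_or_ge m c with h | h
      · have h1 : X.L ^ (n + k - m) * a = X.L ^ (n + k - m - (c + k)) * (X.L ^ (c + k) * a) := by
          rw [← mul_assoc, ← pow_add]; congr 2; omega
        have h2 := num_right hsq (X.corr_mul' (by simp) (X.Lpow_corr m) ha : X.L ^ m * a ∈
          X.corr (m : ℤ)) (hn.mul_left (X.Lpow_corr (n + k - m - (c + k))))
        rw [h1]
        convert h2 using 1
        omega
      · have h1 : X.L ^ m * a = X.L ^ (m - (c + k)) * (X.L ^ (c + k) * a) := by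
          rw [← mul_assoc, ← pow_add]; congr 2; omega
        have h2 := num_left hsq (hn.mul_left (X.Lpow_corr (m - (c + k))))
          (X.corr_mul' (by simp) (X.Lpow_corr (n + k - m)) ha : X.L ^ (n + k - m) * a ∈
            X.corr ((n + k - m : ℕ) : ℤ))
        rw [h1]
        convert h2 using 1
        omega
    rw [key v hv, smul_zero]

/-- the span of the `x ⊗ y` of total degree `2 j` with `deg x < j` -/
def lowPart (X : Variety.{u, v} F) (j : ℤ) : Submodule F (X.H ⊗[F] X.H) :=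
  Submodule.span F {z | ∃ (p q : ℤ) (x y : X.H), p < j ∧ p + q = 2 * j ∧ X.π p x = x ∧
    X.π q y = y ∧ z = x ⊗ₜ[F] y}

lemma mem_lowPart {X : Variety.{u, v} F} {j p q : ℤ} {x y : X.H} (hp : p < j)
    (hpq : p + q = 2 * j) (hx : X.π p x = x) (hy : X.π q y = y) : x ⊗ₜ[F] y ∈ lowPart X j :=
  Submodule.subset_span ⟨p, q, x, y, hp, hpq, hx, hy, rfl⟩

lemma map_lowPart {X : Variety.{u, v} F} {j : ℤ} {z : X.H ⊗[F] X.H} (hz : z ∈ lowPart X j) :
    TensorProduct.map (X.π j) (X.π j) z = 0 := by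
  induction hz using Submodule.span_induction with
  | mem z hz =>
    obtain ⟨p, q, x, y, hp, -, hx, -, rfl⟩ := hz
    rw [TensorProduct.map_tmul, X.π_apply_ne hp.ne' hx, TensorProduct.zero_tmul]
  | zero => rw [map_zero]
  | add x y _ _ hx hy => rw [map_add, hx, hy, add_zero]
  | smul a x _ hx => rw [map_smul, hx, smul_zero]

/-- If `L ^ (c+k) a` is numerically trivial, then `a` is nilpotent on the degrees at most
`dim X - (c+k)`; the input is the operator given by one generic section of codimension `2c-1` of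
`X × X`, and left inverses of the `L ^ i`, `i ≤ k`, in these degrees. -/
theorem nil_of_one {X Z : Variety.{u, v} F} {τ : (X.H ⊗[F] X.H) ≃ₗ[F] Z.H}
    (hsq : IsSquare X Z τ) (c k : ℕ) (hc : 1 ≤ c)
    (h : EvenInverse Z (2 * c - 1))
    (hw : ∀ i ≤ k, ∃ w ∈ X.corr (-(i : ℤ)), ∀ j : ℤ, j ≤ X.dim - (c + k : ℕ) → ∀ x,
      X.π j x = x → w ((X.L ^ i) x) = x)
    (a : Module.End F X.H) (ha : a ∈ X.corr 0)
    (hnum : ∀ θ ∈ X.corr (-((c + k : ℕ) : ℤ)),
      LinearMap.trace F X.H (θ * X.L ^ (c + k) * a * X.sgn) = 0) :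
    ∃ M : ℕ, ∀ j : ℤ, j ≤ X.dim - (c + k : ℕ) → ∀ x, X.π j x = x → (a ^ M) x = 0 := by
  have hn : NumTriv X ((c + k : ℕ) : ℤ) (X.L ^ (c + k) * a) := by
    intro v hv
    have := hnum v hv
    rw [← mul_assoc, ← mul_assoc]
    exact this
  have hdim := hsq.dim
  -- the coefficients
  obtain ⟨β, ⟨i1, hi1, hβ1⟩, hβ⟩ := exists_coef k (2 * c - 1) c
  obtain ⟨i0, hi0, hβ0, hmax⟩ : ∃ i0 ≤ k, β i0 ≠ 0 ∧ ∀ i, i0 < i → i ≤ k → β i = 0 := by
    classical
    let S := (Finset.range (k + 1)).filter (fun i => β i ≠ 0)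
    have hS : S.Nonempty := ⟨i1, Finset.mem_filter.mpr ⟨Finset.mem_range.mpr (by omega), hβ1⟩⟩
    have hmem := S.max'_mem hS
    refine ⟨S.max' hS, ?_, (Finset.mem_filter.mp hmem).2, ?_⟩
    · have := Finset.mem_range.mp (Finset.mem_filter.mp hmem).1
      omega
    · intro i hi hik
      by_contra hne
      have := S.le_max' i (Finset.mem_filter.mpr ⟨Finset.mem_range.mpr (by omega), hne⟩)
      omega
  have hknum := num_kap hsq hc hβ ha hn
  have hK := kap_mem hsq k β ha
  obtain ⟨w1, hw1, hinv1⟩ := hw i0 hi0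
  obtain ⟨w2, hw2, hinv2⟩ := hw (k - i0) (by omega)
  obtain ⟨γ, hγ, hlow, hhigh⟩ := h
  set n := 2 * c - 1 with hnd
  set K : Module.End F Z.H := kap τ k β a with hKdef
  set θ : Module.End F Z.H := τ.conj (TensorProduct.map w1 w2) with hθdef
  have hθ : θ ∈ Z.corr (-(k : ℤ)) := by
    have := hsq.prod _ _ w1 w2 hw1 hw2
    rwa [show (-(i0 : ℤ) + -((k - i0 : ℕ) : ℤ)) = -(k : ℤ) by omega] at this
  have hγL : γ * Z.L ^ n * γ ∈ Z.corr (-(n : ℤ)) := by
    refine Z.corr_mul' (r := 0) (s := -(n : ℤ)) (by ring) ?_ hγ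
    exact Z.corr_mul' (by ring) hγ (Z.Lpow_corr n)
  set T : Module.End F Z.H := θ * (γ * Z.L ^ n * γ * (Z.L ^ n * K)) with hT
  have htm : T ∈ Z.corr 0 := by
    rw [hT]
    refine Z.corr_mul' (r := -(k : ℤ)) (s := (k : ℤ)) (by ring) hθ ?_
    refine Z.corr_mul' (r := -(n : ℤ)) (s := (n : ℤ) + k) (by ring) hγL ?_
    exact Z.corr_mul' (by ring) (Z.Lpow_corr n) hK
  have htn : NumTriv Z 0 T := by
    have h1 := (hknum.mul_left hγL).mul_left hθ
    rwa [show (-(k : ℤ) + (-(n : ℤ) + ((n + k : ℕ) : ℤ))) = 0 by push_cast; ring] at h1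
  have hTz : ∀ z, T z = θ (γ ((Z.L ^ n) (γ ((Z.L ^ n) (K z))))) := by
    intro z
    rw [hT]; simp only [Module.End.mul_apply]
  -- `T` is purely even
  have heven : T * Z.sgn = T := by
    rw [comm_sgn htm]
    apply Z.ext_homog
    intro j z hz
    rw [Module.End.mul_apply, Z.sgn_apply (Z.corr_homog htm (by ring) hz)]
    rcases Int.even_or_odd j with hj | hj
    · rw [(Int.natAbs_even.mpr hj).neg_one_pow, one_smul]
    · have h0 : T z = 0 := by
        have hKz : Z.π (j + 2 * k) (K z) = K z := Z.corr_homog hK rfl hz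
        have hne : ¬ Even (j + 2 * (k : ℤ)) := by
          intro h4
          have h5 : Even j := by
            have := h4.sub (even_two_mul (k : ℤ))
            simpa using this
          exact (Int.not_even_iff_odd.mpr hj) h5
        rw [hTz]
        by_cases hle : j + 2 * k + n ≤ Z.dim
        · have h2 := hlow (j + 2 * k) (by exact_mod_cast hle) (K z) hKz
          rw [if_neg hne] at h2
          rw [h2, map_zero, map_zero, map_zero]
        · have h3 : Z.π (j + 2 * k + 2 * n) ((Z.L ^ n) (K z)) = (Z.L ^ n) (K z) :=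
            Z.corr_homog (Z.Lpow_corr n) rfl hKz
          have hne' : ¬ Even (j + 2 * (k : ℤ) + 2 * (n : ℤ)) := by
            intro h4
            apply hne
            have := h4.sub (even_two_mul (n : ℤ))
            simpa using this
          have h2 := hhigh (j + 2 * k + 2 * n) (by omega) _ h3
          rw [if_neg hne'] at h2
          rw [h2, map_zero, map_zero]
      rw [h0, smul_zero]
  obtain ⟨M, hM⟩ : IsNilpotent T := by
    apply Pool.Agent.Helper89.Sgn.isNilpotent_of_trace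
    intro m hm
    obtain ⟨m, rfl⟩ : ∃ m', m = m' + 1 := ⟨m - 1, by omega⟩
    have h1 := htn (T ^ m) (by
      rw [neg_zero]; exact Z.corr_pow_zero htm m)
    rw [heven, ← pow_succ] at h1
    exact h1
  refine ⟨M, fun j hj x hx => ?_⟩
  -- the operator on `H ⊗ H`
  set D : Module.End F (X.H ⊗[F] X.H) := τ.symm.conj T with hD
  have hDapp : ∀ (p q : ℤ) (x y : X.H), p + q = 2 * j → X.π p x = x → X.π q y = y →
      D (x ⊗ₜ y) = ∑ i ∈ Finset.range (k + 1), (β i : F) •
        ((w1 ((X.L ^ i) (a x))) ⊗ₜ[F] (w2 ((X.L ^ (k - i)) (a y)))) := by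
    intro p q x y hpq hx hy
    have hz : Z.π (2 * j) (τ (x ⊗ₜ y)) = τ (x ⊗ₜ y) := by
      rw [← hpq]; exact hsq.grade p q x y hx hy
    have hKz : Z.π (2 * j + 2 * k) (K (τ (x ⊗ₜ[F] y))) = K (τ (x ⊗ₜ[F] y)) :=
      Z.corr_homog hK rfl hz
    have e3 : γ ((Z.L ^ n) (K (τ (x ⊗ₜ[F] y)))) = K (τ (x ⊗ₜ[F] y)) := by
      have := hlow (2 * j + 2 * k) (by push_cast at hj ⊢; omega) _ hKz
      rw [if_pos ⟨j + k, by ring⟩] at this
      exact this
    have hc : ∀ (g : Module.End F (X.H ⊗[F] X.H)) (u : X.H ⊗[F] X.H),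
        (τ.conj g) (τ u) = τ (g u) := by
      intro g u
      rw [LinearEquiv.conj_apply_apply, LinearEquiv.symm_apply_apply]
    have e4 : K (τ (x ⊗ₜ[F] y)) = τ (∑ i ∈ Finset.range (k + 1), (β i : F) •
        ((X.L ^ i) (a x) ⊗ₜ[F] (X.L ^ (k - i)) (a y))) := by
      rw [hKdef, kap, LinearMap.sum_apply, map_sum]
      refine Finset.sum_congr rfl fun i _ => ?_
      rw [LinearMap.smul_apply, hc, map_smul, TensorProduct.map_tmul]
      rfl
    rw [hD, conj_apply', hTz, e3, e3, e4, hθdef, hc, LinearEquiv.symm_apply_apply, map_sum]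
    refine Finset.sum_congr rfl fun i _ => ?_
    rw [map_smul, TensorProduct.map_tmul]
  -- the terms
  have hterm : ∀ (p q : ℤ) (x y : X.H), p + q = 2 * j → X.π p x = x → X.π q y = y → ∀ i ≤ k,
      (p < j ∧ i ≤ i0) ∨ (p = j ∧ i < i0) →
      (w1 ((X.L ^ i) (a x))) ⊗ₜ[F] (w2 ((X.L ^ (k - i)) (a y))) ∈ lowPart X j := by
    intro p q x y hpq hx hy i hik hcase
    have h1 : X.π (p + 2 * i - 2 * i0) (w1 ((X.L ^ i) (a x))) = w1 ((X.L ^ i) (a x)) := by
      have e1 : X.π p (a x) = a x := X.corr_homog ha (by ring) hx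
      have e2 : X.π (p + 2 * i) ((X.L ^ i) (a x)) = (X.L ^ i) (a x) :=
        X.corr_homog (X.Lpow_corr i) rfl e1
      exact X.corr_homog hw1 (by ring) e2
    have h2 : X.π (q + 2 * ((k - i : ℕ) : ℤ) - 2 * ((k - i0 : ℕ) : ℤ))
        (w2 ((X.L ^ (k - i)) (a y))) = w2 ((X.L ^ (k - i)) (a y)) := by
      have e1 : X.π q (a y) = a y := X.corr_homog ha (by ring) hy
      have e2 : X.π (q + 2 * ((k - i : ℕ) : ℤ)) ((X.L ^ (k - i)) (a y)) =
        (X.L ^ (k - i)) (a y) := X.corr_homog (X.Lpow_corr (k - i)) rfl e1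
      exact X.corr_homog hw2 (by ring) e2
    apply mem_lowPart _ _ h1 h2
    · omega
    · omega
  have hDlow : ∀ z ∈ lowPart X j, D z ∈ lowPart X j := by
    intro z hz
    induction hz using Submodule.span_induction with
    | mem z hz =>
      obtain ⟨p, q, x, y, hp, hpq, hx, hy, rfl⟩ := hz
      rw [hDapp p q x y hpq hx hy]
      apply Submodule.sum_mem
      intro i hi
      rw [Finset.mem_range] at hi
      by_cases hii : i ≤ i0
      · exact Submodule.smul_mem _ _ (hterm p q x y hpq hx hy i (by omega) (Or.inl ⟨hp, hii⟩))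
      · rw [hmax i (by omega) (by omega), Rat.cast_zero, zero_smul]
        exact Submodule.zero_mem _
    | zero => rw [map_zero]; exact Submodule.zero_mem _
    | add x y _ _ hx hy => rw [map_add]; exact Submodule.add_mem _ hx hy
    | smul b x _ hx => rw [map_smul]; exact Submodule.smul_mem _ _ hx
  have hDdiag : ∀ x, X.π j x = x → D (x ⊗ₜ x) - (β i0 : F) • (a x ⊗ₜ[F] a x) ∈ lowPart X j := by
    intro x hx
    have hax : X.π j (a x) = a x := X.corr_homog ha (by ring) hx
    rw [hDapp j j x x (by ring) hx hx]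
    have e1 : ((β i0 : F) • (a x ⊗ₜ[F] a x)) = (β i0 : F) •
        ((w1 ((X.L ^ i0) (a x))) ⊗ₜ[F] (w2 ((X.L ^ (k - i0)) (a x)))) := by
      rw [hinv1 j hj (a x) hax, hinv2 j hj (a x) hax]
    rw [e1, ← Finset.add_sum_erase _ _ (Finset.mem_range.mpr (show i0 < k + 1 by omega)),
      add_sub_cancel_left]
    apply Submodule.sum_mem
    intro i hi
    rw [Finset.mem_erase, Finset.mem_range] at hi
    rcases Nat.lt_or_ge i i0 with hii | hii
    · exact Submodule.smul_mem _ _ (hterm j j x x (by ring) hx hx i (by omega)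
        (Or.inr ⟨rfl, hii⟩))
    · rw [hmax i (by omega) (by omega), Rat.cast_zero, zero_smul]
      exact Submodule.zero_mem _
  have hpow : ∀ m : ℕ, (D ^ m) (x ⊗ₜ x) - ((β i0 : F) ^ m) • ((a ^ m) x ⊗ₜ[F] (a ^ m) x) ∈
      lowPart X j := by
    intro m
    induction m with
    | zero => simp
    | succ m ih =>
      have hamx : X.π j ((a ^ m) x) = (a ^ m) x :=
        X.corr_homog (X.corr_pow_zero ha m) (by ring) hx
      have h1 := hDlow _ ih
      rw [map_sub, map_smul] at h1
      have h2 := Submodule.smul_mem _ ((β i0 : F) ^ m) (hDdiag _ hamx)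
      rw [smul_sub, smul_smul, ← pow_succ] at h2
      have h3 := Submodule.add_mem _ h1 h2
      rw [sub_add_sub_cancel] at h3
      rw [pow_succ' D, Module.End.mul_apply, pow_succ' a, Module.End.mul_apply]
      exact h3
  have h1 := hpow M
  have h2 : D ^ M = 0 := by
    rw [hD, ← conj_pow', hM, map_zero]
  rw [h2, LinearMap.zero_apply, zero_sub] at h1
  have h3 := map_lowPart h1
  have haMx : X.π j ((a ^ M) x) = (a ^ M) x :=
    X.corr_homog (X.corr_pow_zero ha M) (by ring) hx
  rw [map_neg, neg_eq_zero, map_smul, TensorProduct.map_tmul, haMx, smul_eq_zero] at h3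
  rcases h3 with h3 | h3
  · exact absurd (eq_zero_of_pow_eq_zero h3) (by exact_mod_cast hβ0)
  · exact tmul_self_eq_zero h3

end Pool.Agent.Helper29.CPB
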